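import Pool.Agent.Helper90.ST.Defs

set_option autoImplicit false

/-!
# Number of homomorphisms to `ℂ` and number of complements (piece ST-HC)
-/

namespace Pool.Agent.Helper90.ST

theorem finite_hom (Q : Type) [Group Q] [Finite Q] : Finite (Q →* ℂ) :=
  (linearIndependent_monoidHom Q ℂ).finite_of_isNoetherian

theorem card_hom_le (Q : Type) [Group Q] [Finite Q] : Nat.card (Q →* ℂ) ≤ Nat.card Q := by
  classical
  have := finite_hom Q
  have := Fintype.ofFinite (Q →* ℂ)
  have := Fintype.ofFinite Q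
  have h := (linearIndependent_monoidHom Q ℂ).fintype_card_le_finrank
  rw [Module.finrank_fintype_fun_eq_card] at h
  rwa [Nat.card_eq_fintype_card, Nat.card_eq_fintype_card]

/-- a homomorphism of `L` to `ℂ` with kernel the normal subgroup `L'` of prime index -/
theorem exists_theta {p : ℕ} [Fact p.Prime] {G : Type} [Group G] [Finite G]
    (L L' : Subgroup G) (hL' : L'.Normal) (hidx : L'.relIndex L = p) :
    ∃ θ : L →* ℂ, ∀ l : L, θ l = 1 ↔ (l : G) ∈ L' := by
  classical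
  have hp : p.Prime := Fact.out
  have hN : (L'.subgroupOf L).Normal := by infer_instance
  have hcard : Nat.card (L ⧸ L'.subgroupOf L) = p := by
    rw [← hidx]; rfl
  have hcyc : IsCyclic (L ⧸ L'.subgroupOf L) := isCyclic_of_prime_card hcard
  letI : CommGroup (L ⧸ L'.subgroupOf L) := IsCyclic.commGroup
  have hnt : Nontrivial (L ⧸ L'.subgroupOf L) := by
    rw [← Finite.one_lt_card_iff_nontrivial, hcard]
    exact hp.one_lt
  obtain ⟨a, ha⟩ := exists_ne (1 : L ⧸ L'.subgroupOf L)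
  obtain ⟨φ, hφ⟩ := CommGroup.exists_apply_ne_one_of_hasEnoughRootsOfUnity
    (L ⧸ L'.subgroupOf L) ℂ ha
  have hker : φ.ker = ⊥ := by
    have hfp : Fact (Nat.card (L ⧸ L'.subgroupOf L)).Prime := ⟨by rw [hcard]; exact hp⟩
    rcases φ.ker.eq_bot_or_eq_top_of_prime_card with h | h
    · exact h
    · exfalso
      apply hφ
      have : a ∈ φ.ker := by rw [h]; trivial
      exact this
  refine ⟨(Units.coeHom ℂ).comp (φ.comp (QuotientGroup.mk' (L'.subgroupOf L))), ?_⟩
  intro l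
  simp only [MonoidHom.comp_apply, Units.coeHom_apply, Units.val_eq_one]
  constructor
  · intro h
    have h1 : (QuotientGroup.mk' (L'.subgroupOf L)) l ∈ φ.ker := h
    rw [hker, Subgroup.mem_bot] at h1
    have h2 : l ∈ L'.subgroupOf L := by
      rw [← QuotientGroup.eq_one_iff]
      exact h1
    exact Subgroup.mem_subgroupOf.mp h2
  · intro h
    have h2 : l ∈ L'.subgroupOf L := Subgroup.mem_subgroupOf.mpr h
    have h1 : (QuotientGroup.mk' (L'.subgroupOf L)) l = 1 := (QuotientGroup.eq_one_iff l).mpr h2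
    rw [h1, map_one]

/-- extension of `θ` to `M`, trivial on the complement `N` -/
theorem exists_chi {p : ℕ} [Fact p.Prime] {G : Type} [Group G] [Finite G]
    (M L L' N : Subgroup G) (hL : L.Normal) (h2 : L ≤ M) (hidx : L'.relIndex L = p)
    (θ : L →* ℂ) (hθ : ∀ l : L, θ l = 1 ↔ (l : G) ∈ L')
    (hNM : N ≤ M) (hnorm : ∀ m ∈ M, ∀ n ∈ N, m * n * m⁻¹ ∈ N) (hNi : N.relIndex M = p)
    (hNL : N ⊓ L = L') :
    ∃ χ : M →* ℂ, (∀ l : L, χ ⟨l, h2 l.2⟩ = θ l) ∧ ∀ m : M, χ m = 1 ↔ (m : G) ∈ N := by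
  classical
  have hp : p.Prime := Fact.out
  -- `N ⊔ L = M`
  have hsup : N ⊔ L = M := by
    have hle : N ⊔ L ≤ M := sup_le hNM h2
    have h3 : N.relIndex (N ⊔ L) * (N ⊔ L).relIndex M = p := by
      rw [Subgroup.relIndex_mul_relIndex N (N ⊔ L) M le_sup_left hle, hNi]
    have h4 : N.relIndex (N ⊔ L) ≠ 1 := by
      intro h
      rw [Subgroup.relIndex_eq_one] at h
      have h5 : L ≤ N := le_sup_right.trans h
      have h6 : L' = L := by rw [← hNL]; exact inf_eq_right.mpr h5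
      rw [h6, Subgroup.relIndex_self] at hidx
      exact hp.one_lt.ne hidx
    have h5 : (N ⊔ L).relIndex M = 1 := by
      rcases (Nat.dvd_prime hp).mp (Dvd.intro _ h3) with h | h
      · exact absurd h h4
      · rw [h] at h3
        exact Nat.eq_of_mul_eq_mul_left hp.pos (by rw [h3, mul_one])
    exact le_antisymm hle (Subgroup.relIndex_eq_one.mp h5)
  -- decomposition
  have hdec : ∀ m : M, ∃ l : L, (m : G) * (l : G)⁻¹ ∈ N := by
    intro m
    have hm : (m : G) ∈ N ⊔ L := by rw [hsup]; exact m.2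
    obtain ⟨n, hn, l, hl, h⟩ := Subgroup.mem_sup_of_normal_right.mp hm
    refine ⟨⟨l, hl⟩, ?_⟩
    rw [← h]; simpa using hn
  choose f hf using hdec
  have hwd : ∀ (m : M) (l : L), (m : G) * (l : G)⁻¹ ∈ N → θ (f m) = θ l := by
    intro m l hl
    have h3 : (f m : G) * (l : G)⁻¹ ∈ N := by
      have := N.mul_mem (N.inv_mem (hf m)) hl
      simpa [mul_assoc] using this
    have h4 : (f m : G) * (l : G)⁻¹ ∈ L := L.mul_mem (f m).2 (L.inv_mem l.2)
    have h5 : (f m : G) * (l : G)⁻¹ ∈ L' := by rw [← hNL]; exact ⟨h3, h4⟩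
    have h6 : θ (f m * l⁻¹) = 1 := (hθ _).mpr (by simpa using h5)
    calc θ (f m) = θ (f m * l⁻¹ * l) := by simp
      _ = θ (f m * l⁻¹) * θ l := map_mul _ _ _
      _ = θ l := by rw [h6, one_mul]
  refine ⟨{ toFun := fun m => θ (f m), map_one' := ?_, map_mul' := ?_ }, ?_, ?_⟩
  · have := hwd 1 1 (by simpa using N.one_mem)
    rw [this, map_one]
  · intro m m'
    rw [← map_mul]
    apply hwd
    have h3 := hf m
    have h4 := hf m'
    -- m m' (l l')⁻¹ = (m l⁻¹) * (l * (m' l'⁻¹) * l⁻¹)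
    have h5 : (f m : G) * ((m' : G) * (f m' : G)⁻¹) * (f m : G)⁻¹ ∈ N :=
      hnorm _ (h2 (f m).2) _ h4
    have h6 := N.mul_mem h3 h5
    simpa [mul_assoc] using h6
  · intro l
    apply hwd
    simpa using N.one_mem
  · intro m
    show θ (f m) = 1 ↔ _
    rw [hθ]
    constructor
    · intro h
      have h3 : (f m : G) ∈ N := by
        have : (f m : G) ∈ N ⊓ L := by rw [hNL]; exact h
        exact this.1
      have := N.mul_mem (hf m) h3
      simpa using this
    · intro h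
      rw [← hNL]
      refine ⟨?_, (f m).2⟩
      have := N.mul_mem (N.inv_mem (hf m)) h
      have h3 := this
      simpa [mul_assoc] using h3

theorem card_complements_le {p : ℕ} [Fact p.Prime] {G : Type} [Group G] [Finite G]
    (M L L' : Subgroup G) (hM : M.Normal) (hL : L.Normal) (hL' : L'.Normal) (h1 : L' ≤ L)
    (h2 : L ≤ M) (hidx : L'.relIndex L = p) :
    {N : Subgroup G | N ≤ M ∧ (∀ m ∈ M, ∀ n ∈ N, m * n * m⁻¹ ∈ N) ∧ N.relIndex M = p ∧
      N ⊓ L = L'}.ncard ≤ L.relIndex M := by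
  classical
  set X := {N : Subgroup G | N ≤ M ∧ (∀ m ∈ M, ∀ n ∈ N, m * n * m⁻¹ ∈ N) ∧ N.relIndex M = p ∧
      N ⊓ L = L'} with hX
  obtain ⟨θ, hθ⟩ := exists_theta (p := p) L L' hL' hidx
  have hex : ∀ N : X, ∃ χ : M →* ℂ, (∀ l : L, χ ⟨l, h2 l.2⟩ = θ l) ∧
      ∀ m : M, χ m = 1 ↔ (m : G) ∈ (N : Subgroup G) := by
    intro N
    obtain ⟨a, b, c, d⟩ := N.2
    exact exists_chi M L L' N hL h2 hidx θ hθ a b c d
  choose χ hχ1 hχ2 using hex
  rcases X.eq_empty_or_nonempty with he | ⟨N0, hN0⟩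
  · rw [he]; simp
  set N0' : X := ⟨N0, hN0⟩
  -- the quotients
  let ψ : X → (M →* ℂ) := fun N =>
    { toFun := fun m => χ N m * χ N0' m⁻¹
      map_one' := by simp
      map_mul' := by
        intro m m'
        rw [mul_inv_rev, map_mul, map_mul]
        ring }
  have hψ : ∀ N, L.subgroupOf M ≤ (ψ N).ker := by
    intro N m hm
    rw [MonoidHom.mem_ker]
    have hmL : (m : G) ∈ L := Subgroup.mem_subgroupOf.mp hm
    show χ N m * χ N0' m⁻¹ = 1
    have e1 : χ N m = θ ⟨m, hmL⟩ := hχ1 N ⟨m, hmL⟩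
    have e2 : χ N0' m⁻¹ = θ ⟨m, hmL⟩⁻¹ := by
      have := hχ1 N0' ⟨m, hmL⟩⁻¹
      rw [← this]
      rfl
    rw [e1, e2, ← map_mul, mul_inv_cancel, map_one]
  let Ψ : X → ((M ⧸ L.subgroupOf M) →* ℂ) := fun N => QuotientGroup.lift _ (ψ N) (hψ N)
  have hinj : Function.Injective Ψ := by
    intro N N' h
    have h3 : ∀ m : M, χ N m = χ N' m := by
      intro m
      have h4 : Ψ N (QuotientGroup.mk m) = Ψ N' (QuotientGroup.mk m) := by rw [h]
      have h5 : χ N m * χ N0' m⁻¹ = χ N' m * χ N0' m⁻¹ := h4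
      have h6 : χ N0' m⁻¹ ≠ 0 := by
        intro h0
        have : χ N0' (m⁻¹ * m) = 0 := by rw [map_mul, h0, zero_mul]
        rw [inv_mul_cancel, map_one] at this
        exact one_ne_zero this
      exact mul_right_cancel₀ h6 h5
    apply Subtype.ext
    ext g
    constructor
    · intro hg
      have hgM : g ∈ M := N.2.1 hg
      have := (hχ2 N ⟨g, hgM⟩).mpr hg
      rw [h3] at this
      exact (hχ2 N' ⟨g, hgM⟩).mp this
    · intro hg
      have hgM : g ∈ M := N'.2.1 hg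
      have := (hχ2 N' ⟨g, hgM⟩).mpr hg
      rw [← h3] at this
      exact (hχ2 N ⟨g, hgM⟩).mp this
  have hfin := finite_hom (M ⧸ L.subgroupOf M)
  rw [← Nat.card_coe_set_eq]
  calc Nat.card X ≤ Nat.card ((M ⧸ L.subgroupOf M) →* ℂ) :=
        Nat.card_le_card_of_injective Ψ hinj
    _ ≤ Nat.card (M ⧸ L.subgroupOf M) := card_hom_le _
    _ = L.relIndex M := rfl

end Pool.Agent.Helper90.ST
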