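import Pool.Agent.Helper90.ST.Defs
import Pool.Agent.Helper68.ST.HC
import Pool.Agent.Helper51.ST.PG
import Pool.Agent.Helper12.ST.KF
import Pool.Agent.Helper22.ST.CONG

set_option autoImplicit false

/-!
# Piece ST-T7
-/

namespace Pool.Agent.Helper90.ST

section KF

variable {G ι : Type} [Group G] {A : ι → Subgroup G} {S : Subgroup G} {s t : ℕ}

/-- `A j ⊔ S` is normal -/
theorem sup_normal_of_habel (H : Subgroup G)
    (habel : ∀ x y : G, x * y * x⁻¹ * y⁻¹ ∈ S) : (H ⊔ S).Normal := by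
  refine ⟨fun n hn g => ?_⟩
  have h1 : g * n * g⁻¹ * n⁻¹ ∈ H ⊔ S := (le_sup_right : S ≤ H ⊔ S) (habel g n)
  have h2 := (H ⊔ S).mul_mem h1 hn
  simpa using h2

theorem conj_of_congr (h : IsKF A S s t) (hs : 1 < s) (ht : 1 < t)
    (habel : ∀ x y : G, x * y * x⁻¹ * y⁻¹ ∈ S) (hnd : ¬ (s + t) ∣ s ^ 2) :
    ∀ i, ∀ a ∈ A i, a ≠ 1 → ∀ σ ∈ S, ∃ g : G, g⁻¹ * a * g = a * σ := by
  classical
  intro i a ha hane σ hσ
  have hfι := h.finite_ι
  letI := Fintype.ofFinite ι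
  have hfG := h.finite_G (by omega) (by omega)
  have hSn := h.normS
  -- membership in `A j ⊔ S`
  have hmem : ∀ j, ∀ g : G, g⁻¹ * (a * σ) * g ∈ A j ⊔ S ↔ j = i := by
    intro j g
    have hn := sup_normal_of_habel (S := S) (A j) habel
    have e1 : g⁻¹ * (a * σ) * g ∈ A j ⊔ S ↔ a * σ ∈ A j ⊔ S := by
      constructor
      · intro h1
        have h2 := hn.conj_mem _ h1 g
        have h3 : g * (g⁻¹ * (a * σ) * g) * g⁻¹ = a * σ := by group
        rwa [h3] at h2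
      · intro h1
        have h2 := hn.conj_mem _ h1 g⁻¹
        simpa using h2
    rw [e1]
    constructor
    · intro h1
      by_contra hne
      have h2 : a ∈ A j ⊔ S := by
        have h3 : σ⁻¹ ∈ A j ⊔ S := (le_sup_right : S ≤ _) (S.inv_mem hσ)
        have h4 := (A j ⊔ S).mul_mem h1 h3
        simpa using h4
      obtain ⟨b, hb, τ, hτ, hbτ⟩ := Subgroup.mem_sup_of_normal_right.mp h2
      -- a = b τ; so b⁻¹ a = τ ∈ S; b⁻¹ ∈ A j, a ∈ A i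
      have h5 : a⁻¹ * b ∈ S := by
        have h6 : a⁻¹ * b = τ⁻¹ := by rw [← hbτ]; group
        rw [h6]; exact S.inv_mem hτ
      have h7 := h.K2 i j (Ne.symm hne) a⁻¹ ((A i).inv_mem ha) b hb h5
      exact hane (inv_eq_one.mp h7)
    · intro h1
      subst h1
      exact (A j ⊔ S).mul_mem ((le_sup_left : A j ≤ _) ha) ((le_sup_right : S ≤ _) hσ)
  have hN2 : ∑ j, (Nat.card {g : G // g⁻¹ * (a * σ) * g ∈ A j ⊔ S} : ℤ) = (s : ℤ) ^ 2 * t := by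
    rw [Finset.sum_eq_single i]
    · have h1 : Nat.card {g : G // g⁻¹ * (a * σ) * g ∈ A i ⊔ S} = Nat.card G := by
        apply Nat.card_congr
        exact Equiv.subtypeUnivEquiv (fun g => (hmem i g).mpr rfl)
      rw [h1, h.cardG]
      push_cast
      ring
    · intro j _ hj
      have h1 : IsEmpty {g : G // g⁻¹ * (a * σ) * g ∈ A j ⊔ S} :=
        ⟨fun g => hj ((hmem j g.1).mp g.2)⟩
      simp
    · intro h1
      exact absurd (Finset.mem_univ i) h1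
  -- some conjugate lies in some `A j`
  have hex : ∃ j, ∃ g : G, g⁻¹ * (a * σ) * g ∈ A j := by
    by_contra hcon
    push Not at hcon
    have hN1 : ∑ j, (Nat.card {g : G // g⁻¹ * (a * σ) * g ∈ A j} : ℤ) = 0 := by
      apply Finset.sum_eq_zero
      intro j _
      have h1 : IsEmpty {g : G // g⁻¹ * (a * σ) * g ∈ A j} := ⟨fun g => hcon j g.1 g.2⟩
      simp
    have h1 := kf_congr h (by omega) (by omega) (a * σ)
    rw [hN1, hN2, mul_zero, zero_sub, dvd_neg] at h1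
    have ht0 : (t : ℤ) ≠ 0 := by
      have : t ≠ 0 := by omega
      exact_mod_cast this
    have h2 := Int.dvd_of_mul_dvd_mul_right ht0 h1
    apply hnd
    exact_mod_cast h2
  obtain ⟨j, g, hg⟩ := hex
  have hji : j = i := (hmem j g).mp ((le_sup_left : A j ≤ _) hg)
  subst hji
  set a' := g⁻¹ * (a * σ) * g with ha'
  -- a' ≡ a mod S
  have h1 : a⁻¹ * a' ∈ S := by
    -- a⁻¹ g⁻¹ a σ g = (a⁻¹ g⁻¹ a g) (g⁻¹ σ g)
    have h2 : a⁻¹ * a' = (a⁻¹ * g⁻¹ * a * g) * (g⁻¹ * σ * g) := by rw [ha']; group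
    rw [h2]
    apply S.mul_mem
    · have h3 := habel a⁻¹ g⁻¹
      simpa using h3
    · have h3 := hSn.conj_mem σ hσ g⁻¹
      simpa using h3
  have h2 : a⁻¹ * a' ∈ A j := (A j).mul_mem ((A j).inv_mem ha) hg
  have h3 := h.inter_S (by omega) j _ h2 h1
  have h4 : a' = a := (inv_mul_eq_one.mp h3).symm
  refine ⟨g⁻¹, ?_⟩
  rw [inv_inv]
  rw [← h4, ha']
  have h5 : g * (g⁻¹ * (a * σ) * g) * g⁻¹ = a * σ := by group
  rw [h5]
  rw [← ha', h4]

/-- the number of nonconjugate actions on `S` modulo `N` -/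
theorem exists_central_mod (h : IsKF A S s t) {p : ℕ} [Fact p.Prime] [Finite G]
    (hG : IsPGroup p G) (ht1 : 1 < t) (hts : t ≤ s) (S1 N : Subgroup G)
    (hS1n : S1.Normal) (hN : N.Normal) (hNS : N < S1) (hidx : N.relIndex S1 = p)
    (hS1 : S1 ≤ S) (hcomm : ∀ σ ∈ S, ∀ g : G, σ⁻¹ * g⁻¹ * σ * g ∈ S1) (i : ι) :
    ∃ b ∈ A i, b ≠ 1 ∧ ∀ σ ∈ S, b⁻¹ * σ⁻¹ * b * σ ∈ N := by
  classical
  have hp : p.Prime := Fact.out
  obtain ⟨θ, hθ⟩ := exists_theta (p := p) S1 N hN hidx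
  have hcen := comm_mem_of_relIndex hG N S1 hN hS1n hNS.le hidx
  -- `θ` is invariant under conjugation
  have hinv : ∀ (k : G) (hk : k ∈ S1) (g : G) (hk' : g⁻¹ * k * g ∈ S1),
      θ ⟨g⁻¹ * k * g, hk'⟩ = θ ⟨k, hk⟩ := by
    intro k hk g hk'
    have h1 : (⟨g⁻¹ * k * g, hk'⟩ : S1) = ⟨k, hk⟩ * ⟨k⁻¹ * g⁻¹ * k * g, hNS.le (hcen k hk g)⟩ := by
      apply Subtype.ext
      show g⁻¹ * k * g = k * (k⁻¹ * g⁻¹ * k * g)
      group
    rw [h1, map_mul, (hθ ⟨k⁻¹ * g⁻¹ * k * g, _⟩).mpr (hcen k hk g), mul_one]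
  let χ : G → (S →* ℂ) := fun g =>
    { toFun := fun σ => θ ⟨(σ : G)⁻¹ * g⁻¹ * σ * g, hcomm σ σ.2 g⟩
      map_one' := by
        have h1 : (⟨((1 : S) : G)⁻¹ * g⁻¹ * ((1 : S) : G) * g, hcomm _ (1 : S).2 g⟩ : S1) = 1 := by
          apply Subtype.ext
          simp
        rw [h1, map_one]
      map_mul' := by
        intro σ τ
        have hk : (σ : G)⁻¹ * g⁻¹ * σ * g ∈ S1 := hcomm σ σ.2 g
        have hk' : (τ : G)⁻¹ * ((σ : G)⁻¹ * g⁻¹ * σ * g) * τ ∈ S1 := by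
          have := hS1n.conj_mem _ hk (τ : G)⁻¹
          simpa using this
        rw [← hinv _ hk (τ : G) hk', ← map_mul]
        congr 1
        apply Subtype.ext
        show ((σ : G) * τ)⁻¹ * g⁻¹ * ((σ : G) * τ) * g =
          ((τ : G)⁻¹ * ((σ : G)⁻¹ * g⁻¹ * σ * g) * τ) * ((τ : G)⁻¹ * g⁻¹ * τ * g)
        group }
  have hχ : ∀ g, S1.subgroupOf S ≤ (χ g).ker := by
    intro g k hk
    rw [MonoidHom.mem_ker]
    have hk1 : (k : G) ∈ S1 := Subgroup.mem_subgroupOf.mp hk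
    exact (hθ _).mpr (hcen k hk1 g)
  let Ψ : A i → ((S ⧸ S1.subgroupOf S) →* ℂ) := fun g => QuotientGroup.lift _ (χ g) (hχ g)
  have hfin := finite_hom (S ⧸ S1.subgroupOf S)
  -- not injective
  have hninj : ¬ Function.Injective Ψ := by
    intro hinj
    have h1 := Nat.card_le_card_of_injective Ψ hinj
    have h2 := card_hom_le (S ⧸ S1.subgroupOf S)
    have h3 : Nat.card (S ⧸ S1.subgroupOf S) * Nat.card (S1.subgroupOf S) = Nat.card S :=
      (Subgroup.card_eq_card_quotient_mul_card_subgroup _).symm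
    have h4 : Nat.card (S1.subgroupOf S) = Nat.card S1 :=
      Nat.card_congr (Subgroup.subgroupOfEquivOfLe hS1).toEquiv
    have h5 : p ≤ Nat.card S1 := by
      apply Nat.le_of_dvd Nat.card_pos
      rw [← hidx]
      exact Subgroup.relIndex_dvd_card N S1
    rw [h4, h.cardS] at h3
    rw [h.cardA] at h1
    have h6 : 2 ≤ Nat.card S1 := hp.two_le.trans h5
    have h7 : Nat.card (S ⧸ S1.subgroupOf S) * 2 ≤ t := by
      rw [← h3]
      exact Nat.mul_le_mul_left _ h6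
    omega
  rw [Function.not_injective_iff] at hninj
  obtain ⟨g, g', hgg, hne⟩ := hninj
  refine ⟨(g' : G) * (g : G)⁻¹, (A i).mul_mem g'.2 ((A i).inv_mem g.2), ?_, ?_⟩
  · intro h1
    apply hne
    apply Subtype.ext
    exact (mul_inv_eq_one.mp h1).symm
  · intro σ hσ
    have h1 : Ψ g (QuotientGroup.mk ⟨σ, hσ⟩) = Ψ g' (QuotientGroup.mk ⟨σ, hσ⟩) := by rw [hgg]
    have h2 : θ ⟨σ⁻¹ * (g : G)⁻¹ * σ * g, hcomm σ hσ g⟩ =
      θ ⟨σ⁻¹ * (g' : G)⁻¹ * σ * g', hcomm σ hσ g'⟩ := h1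
    -- [σ,g]⁻¹ [σ,g'] ∈ N
    have h3 : (σ⁻¹ * (g : G)⁻¹ * σ * g)⁻¹ * (σ⁻¹ * (g' : G)⁻¹ * σ * g') ∈ N := by
      have h4 : θ (⟨σ⁻¹ * (g : G)⁻¹ * σ * g, hcomm σ hσ g⟩⁻¹ *
          ⟨σ⁻¹ * (g' : G)⁻¹ * σ * g', hcomm σ hσ g'⟩) = 1 := by
        rw [map_mul, ← h2, ← map_mul, inv_mul_cancel, map_one]
      exact (hθ _).mp h4
    -- conjugate
    have h4 := hN.conj_mem _ h3 (σ⁻¹ * (g' : G) )
    have h5 := hN.conj_mem _ h3 ((g' : G))
    have h6 : (g' : G) * ((σ⁻¹ * (g : G)⁻¹ * σ * g)⁻¹ * (σ⁻¹ * (g' : G)⁻¹ * σ * g')) * (g' : G)⁻¹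
        = ((g' : G) * (g : G)⁻¹) * σ⁻¹ * ((g' : G) * (g : G)⁻¹)⁻¹ * σ := by
      group
    rw [h6] at h5
    have h7 := hN.conj_mem _ (N.inv_mem h5) (((g' : G) * (g : G)⁻¹)⁻¹ * σ⁻¹)
    have h8 := hN.conj_mem _ h5 (((g' : G) * (g : G)⁻¹)⁻¹)
    have h9 : ((g' : G) * (g : G)⁻¹)⁻¹ *
        (((g' : G) * (g : G)⁻¹) * σ⁻¹ * ((g' : G) * (g : G)⁻¹)⁻¹ * σ) *
        (((g' : G) * (g : G)⁻¹)⁻¹)⁻¹ =
        σ⁻¹ * ((g' : G) * (g : G)⁻¹)⁻¹ * σ * ((g' : G) * (g : G)⁻¹) := by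
      group
    rw [h9] at h8
    have h10 := N.inv_mem h8
    have h11 : (σ⁻¹ * ((g' : G) * (g : G)⁻¹)⁻¹ * σ * ((g' : G) * (g : G)⁻¹))⁻¹ =
      ((g' : G) * (g : G)⁻¹)⁻¹ * σ⁻¹ * ((g' : G) * (g : G)⁻¹) * σ := by group
    rwa [h11] at h10

theorem central_of_conj (h : IsKF A S s t) {p n m : ℕ} (hp : p.Prime) (hs : s = p ^ n)
    (ht : t = p ^ m) (hs1 : 1 < s) (ht1 : 1 < t) (hts : t ≤ s)
    (habel : ∀ x y : G, x * y * x⁻¹ * y⁻¹ ∈ S)
    (hconj : ∀ i, ∀ a ∈ A i, a ≠ 1 → ∀ σ ∈ S, ∃ g : G, g⁻¹ * a * g = a * σ) :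
    ∀ σ ∈ S, ∀ g : G, σ * g = g * σ := by
  classical
  have hpf : Fact p.Prime := ⟨hp⟩
  have hfG := h.finite_G (by omega) (by omega)
  have hSn := h.normS
  have hG : IsPGroup p G := by
    apply IsPGroup.of_card (n := 2 * n + m)
    rw [h.cardG, hs, ht]
    ring
  by_contra hcon
  push Not at hcon
  obtain ⟨σ₀, hσ₀, g₀, hne⟩ := hcon
  set S1 : Subgroup G := ⁅S, (⊤ : Subgroup G)⁆ with hS1def
  have hS1n : S1.Normal := Subgroup.commutator_normal S ⊤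
  have hS1 : S1 ≤ S := Subgroup.commutator_le_left S ⊤
  have hcomm : ∀ σ ∈ S, ∀ g : G, σ⁻¹ * g⁻¹ * σ * g ∈ S1 := by
    intro σ hσ g
    have := Subgroup.commutator_mem_commutator (S.inv_mem hσ) (Subgroup.mem_top g⁻¹)
    simpa [commutatorElement_def] using this
  have hlt : (⊥ : Subgroup G) < S1 := by
    rw [bot_lt_iff_ne_bot]
    intro h0
    apply hne
    have h1 := hcomm σ₀ hσ₀ g₀
    rw [h0, Subgroup.mem_bot] at h1
    have h2 : σ₀ * g₀ = g₀ * σ₀ * (σ₀⁻¹ * g₀⁻¹ * σ₀ * g₀) := by group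
    rw [h2, h1, mul_one]
  obtain ⟨N, hN, -, hNS, hidx⟩ := exists_index_p hG ⊥ S1 (by infer_instance) hS1n hlt
  have hcenb := exists_central_mod h hG ht1 hts S1 N hS1n hN hNS hidx hS1 hcomm
  -- `A i ≤ D`
  set D : Subgroup G := (Subgroup.centralizer ((S.map (QuotientGroup.mk' N)) : Set (G ⧸ N))).comap
    (QuotientGroup.mk' N) with hD
  have hmemD : ∀ g : G, g ∈ D ↔ ∀ σ ∈ S, (QuotientGroup.mk' N) σ * (QuotientGroup.mk' N) g =
      (QuotientGroup.mk' N) g * (QuotientGroup.mk' N) σ := by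
    intro g
    rw [hD, Subgroup.mem_comap, Subgroup.mem_centralizer_iff]
    constructor
    · intro h1 σ hσ
      exact h1 _ (Subgroup.mem_map_of_mem _ hσ)
    · rintro h1 _ ⟨σ, hσ, rfl⟩
      exact h1 σ hσ
  have hAD : ∀ i, A i ≤ D := by
    intro i a ha
    obtain ⟨b, hb, hbne, hbN⟩ := hcenb i
    rw [hmemD]
    intro σ hσ
    obtain ⟨g, hg⟩ := hconj i b hb hbne σ hσ
    -- `a` and `b` commute
    have hab : a * b = b * a := by
      have h1 : a⁻¹ * b⁻¹ * a * b = 1 := by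
        apply h.inter_S (by omega) i
        · exact (A i).mul_mem ((A i).mul_mem ((A i).mul_mem ((A i).inv_mem ha)
            ((A i).inv_mem hb)) ha) hb
        · have := habel a⁻¹ b⁻¹
          simpa using this
      have h2 : a * b = b * a * (a⁻¹ * b⁻¹ * a * b) := by group
      rw [h2, h1, mul_one]
    set π := QuotientGroup.mk' N with hπ
    -- τ
    set τ := g * a * g⁻¹ * a⁻¹ with hτ
    have hτS : τ ∈ S := habel g a
    have h1 : π τ⁻¹ * π b * π τ = π b := by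
      have h2 := hbN τ hτS
      have h3 : π (b⁻¹ * τ⁻¹ * b * τ) = 1 := (QuotientGroup.eq_one_iff _).mpr h2
      have h4 : π b * π (b⁻¹ * τ⁻¹ * b * τ) = π τ⁻¹ * π b * π τ := by
        rw [← map_mul, ← map_mul, ← map_mul]
        congr 1
        group
      rw [← h4, h3, mul_one]
    have hσ' : σ = b⁻¹ * g⁻¹ * b * g := by
      have : b * σ = g⁻¹ * b * g := hg.symm
      calc σ = b⁻¹ * (b * σ) := by group
        _ = b⁻¹ * (g⁻¹ * b * g) := by rw [this]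
        _ = b⁻¹ * g⁻¹ * b * g := by group
    have hba' : b⁻¹ * a⁻¹ = a⁻¹ * b⁻¹ := by
      rw [← mul_inv_rev, ← mul_inv_rev, hab]
    have hga : g * a = τ * a * g := by rw [hτ]; group
    -- a⁻¹ σ a ≡ σ
    have key : π (a⁻¹ * σ * a) = π σ := by
      have e1 : a⁻¹ * σ * a = b⁻¹ * (g⁻¹ * a⁻¹ * (τ⁻¹ * b * τ) * a * g) := by
        calc a⁻¹ * σ * a = a⁻¹ * (b⁻¹ * g⁻¹ * b * g) * a := by rw [← hσ']
          _ = (a⁻¹ * b⁻¹) * (g⁻¹ * b * (g * a)) := by group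
          _ = (b⁻¹ * a⁻¹) * (g⁻¹ * b * (g * a)) := by rw [hba']
          _ = b⁻¹ * ((g * a)⁻¹ * b * (g * a)) := by group
          _ = b⁻¹ * ((τ * a * g)⁻¹ * b * (τ * a * g)) := by rw [hga]
          _ = b⁻¹ * (g⁻¹ * a⁻¹ * (τ⁻¹ * b * τ) * a * g) := by group
      have e2 : π (b⁻¹ * (g⁻¹ * a⁻¹ * (τ⁻¹ * b * τ) * a * g)) =
          π (b⁻¹ * (g⁻¹ * a⁻¹ * b * a * g)) := by
        simp only [map_mul]
        rw [h1]
      have e3 : b⁻¹ * (g⁻¹ * a⁻¹ * b * a * g) = σ := by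
        calc b⁻¹ * (g⁻¹ * a⁻¹ * b * a * g) = b⁻¹ * (g⁻¹ * a⁻¹ * (b * a) * g) := by group
          _ = b⁻¹ * (g⁻¹ * a⁻¹ * (a * b) * g) := by rw [hab]
          _ = b⁻¹ * g⁻¹ * b * g := by group
          _ = σ := hσ'.symm
      rw [e1, e2, e3]
    have h5 : π a * π (a⁻¹ * σ * a) = π σ * π a := by
      rw [← map_mul, ← map_mul]
      congr 1
      group
    rw [key] at h5
    exact h5.symm
  have hDtop : D = ⊤ := by
    rw [eq_top_iff, ← h.iSup_eq_top hs1 (by omega)]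
    exact iSup_le hAD
  -- hence `S1 ≤ N`
  have hS1N : S1 ≤ N := by
    rw [hS1def, Subgroup.commutator_le]
    intro σ hσ g _
    have h1 : g ∈ D := by rw [hDtop]; trivial
    have h2 := (hmemD g).mp h1 σ hσ
    rw [commutatorElement_def, ← QuotientGroup.eq_one_iff]
    show (QuotientGroup.mk' N) (σ * g * σ⁻¹ * g⁻¹) = 1
    rw [map_mul, map_mul, map_mul, h2, map_inv, map_inv]
    group
  exact absurd (lt_of_lt_of_le hNS hS1N) (lt_irrefl N)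

end KF

end Pool.Agent.Helper90.ST
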